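import Mathlib

/-!
# Closed balls of positive radius of a metric space

Definitions for the problem MP_856f66_gt.
-/

set_option autoImplicit false

namespace Pool.Agent.R859.UB

universe u v

/-- The closed balls of positive radius of the metric space `X`, regarded as subsets of `X`. -/
def PosBall (X : Type u) [MetricSpace X] : Type u :=
  {A : Set X // ∃ (c : X) (r : ℝ), 0 < r ∧ A = Metric.closedBall c r}

/-- The sets of closed balls of positive radius of `X` and of `Y`, with the Hausdorff distances,
are isometric. -/
def BallIsometric (X : Type u) (Y : Type v) [MetricSpace X] [MetricSpace Y] : Prop :=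
  ∃ F : PosBall X ≃ PosBall Y, ∀ A B : PosBall X,
    Metric.hausdorffDist (F A).1 (F B).1 = Metric.hausdorffDist A.1 B.1

end Pool.Agent.R859.UB
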