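import Mathlib
import Pool.Agent.R859.UB.Defs

/-!
# The ballean of an ultrametric space
-/

set_option autoImplicit false

namespace Pool.Agent.R859.UB

open Metric Set Filter Topology

universe u v

/-- The closed balls. -/
def Bal (X : Type u) [MetricSpace X] : Type u :=
  {A : Set X // ∃ (c : X) (r : ℝ), 0 ≤ r ∧ A = closedBall c r}

section

variable {X : Type u} [MetricSpace X]

lemma Bal.nonempty (A : Bal X) : A.1.Nonempty := by
  obtain ⟨c, r, hr, h⟩ := A.2
  exact ⟨c, by rw [h]; exact mem_closedBall_self hr⟩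

lemma Bal.bdd (A : Bal X) : Bornology.IsBounded A.1 := by
  obtain ⟨c, r, hr, h⟩ := A.2
  rw [h]
  exact isBounded_closedBall

/-- The singleton ball. -/
def sg (x : X) : Bal X := ⟨{x}, x, 0, le_rfl, closedBall_zero.symm⟩

/-- The ball of radius `r` about `x`. -/
def bl (x : X) (r : ℝ) (hr : 0 ≤ r) : Bal X := ⟨closedBall x r, x, r, hr, rfl⟩

variable [IsUltrametricDist X]

lemma diam_closedBall_le (x : X) {r : ℝ} (hr : 0 ≤ r) : diam (closedBall x r) ≤ r := by
  apply diam_le_of_forall_dist_le hr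
  intro a ha b hb
  rw [mem_closedBall] at ha hb
  rw [dist_comm] at hb
  exact le_trans (IsUltrametricDist.dist_triangle_max a x b) (max_le ha hb)

lemma Bal.eq_closedBall (A : Bal X) {a : X} (ha : a ∈ A.1) : A.1 = closedBall a (diam A.1) := by
  apply Subset.antisymm
  · intro b hb
    rw [mem_closedBall]
    exact dist_le_diam_of_mem A.bdd hb ha
  · intro b hb
    obtain ⟨c, r, hr, h⟩ := A.2
    have h1 : closedBall c r = closedBall a r :=
      IsUltrametricDist.closedBall_eq_of_mem (h ▸ ha)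
    rw [mem_closedBall] at hb
    rw [h, h1, mem_closedBall]
    refine le_trans hb ?_
    rw [h]
    exact diam_closedBall_le c hr

lemma Bal.sep (A : Bal X) {a b : X} (ha : a ∈ A.1) (hb : b ∉ A.1) : diam A.1 < dist a b := by
  rw [A.eq_closedBall ha, mem_closedBall, not_le, dist_comm] at hb
  exact hb

lemma diam_le_of_subset_closedBall {s : Set X} {x : X} {r : ℝ} (hr : 0 ≤ r)
    (h : s ⊆ closedBall x r) : diam s ≤ r :=
  le_trans (diam_mono h isBounded_closedBall) (diam_closedBall_le x hr)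

lemma hausdorff_aux (A B : Bal X) (h : ¬ B.1 ⊆ A.1) :
    hausdorffDist A.1 B.1 = diam (A.1 ∪ B.1) := by
  apply le_antisymm
  · exact hausdorffDist_le_diam A.nonempty A.bdd B.nonempty B.bdd
  · obtain ⟨b0, hb0, hb0'⟩ := not_subset.1 h
    obtain ⟨a0, ha0⟩ := A.nonempty
    have hfin : hausdorffEDist B.1 A.1 ≠ ⊤ :=
      hausdorffEDist_ne_top_of_nonempty_of_bounded B.nonempty A.nonempty B.bdd A.bdd
    have key : ∀ b ∈ B.1, b ∉ A.1 → dist b a0 ≤ hausdorffDist A.1 B.1 := by
      intro b hb hb'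
      rw [hausdorffDist_comm]
      refine le_trans ?_ (infDist_le_hausdorffDist_of_mem hb hfin)
      rw [le_infDist A.nonempty]
      intro a ha
      have h1 : diam A.1 < dist a b := A.sep ha hb'
      have h2 : dist a a0 ≤ diam A.1 := dist_le_diam_of_mem A.bdd ha ha0
      have h3 := IsUltrametricDist.dist_triangle_max b a a0
      rw [dist_comm a b] at h1
      rcases le_max_iff.1 h3 with h4 | h4
      · exact h4
      · linarith
    have h0 := key b0 hb0 hb0'
    have h1 : diam A.1 < dist b0 a0 := by rw [dist_comm]; exact A.sep ha0 hb0'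
    have hr : 0 ≤ hausdorffDist A.1 B.1 := hausdorffDist_nonneg
    apply diam_le_of_subset_closedBall (x := a0) hr
    rintro x (hx | hx)
    · rw [mem_closedBall]
      have : dist x a0 ≤ diam A.1 := dist_le_diam_of_mem A.bdd hx ha0
      linarith
    · rw [mem_closedBall]
      by_cases hx' : x ∈ A.1
      · have : dist x a0 ≤ diam A.1 := dist_le_diam_of_mem A.bdd hx' ha0
        linarith
      · exact key x hx hx'

lemma hausdorff_eq (A B : Bal X) (h : A ≠ B) :
    hausdorffDist A.1 B.1 = diam (A.1 ∪ B.1) := by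
  by_cases h1 : B.1 ⊆ A.1
  · have h2 : ¬ A.1 ⊆ B.1 := fun h2 => h (Subtype.ext (Subset.antisymm h2 h1))
    rw [hausdorffDist_comm, union_comm]
    exact hausdorff_aux B A h2
  · exact hausdorff_aux A B h1

lemma diam_union_pos (A B : Bal X) (h : A ≠ B) : 0 < diam (A.1 ∪ B.1) := by
  by_contra h0
  apply h
  have hb := A.bdd.union B.bdd
  have h1 : ∀ x ∈ A.1 ∪ B.1, ∀ y ∈ A.1 ∪ B.1, x = y := by
    intro x hx y hy
    have := dist_le_diam_of_mem hb hx hy
    exact dist_le_zero.1 (by linarith)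
  obtain ⟨a, ha⟩ := A.nonempty
  obtain ⟨b, hb'⟩ := B.nonempty
  apply Subtype.ext
  apply Subset.antisymm
  · intro x hx
    rw [h1 x (Or.inl hx) b (Or.inr hb')]
    exact hb'
  · intro x hx
    rw [h1 x (Or.inr hx) a (Or.inl ha)]
    exact ha

noncomputable instance instMetricBal : MetricSpace (Bal X) where
  dist A B := hausdorffDist A.1 B.1
  dist_self A := hausdorffDist_self_zero
  dist_comm A B := hausdorffDist_comm
  dist_triangle A B C := hausdorffDist_triangle
    (hausdorffEDist_ne_top_of_nonempty_of_bounded A.nonempty B.nonempty A.bdd B.bdd)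
  eq_of_dist_eq_zero := by
    intro A B h
    by_contra hne
    have h1 := diam_union_pos A B hne
    rw [← hausdorff_eq A B hne] at h1
    exact h1.ne' h

lemma dist_def (A B : Bal X) : dist A B = hausdorffDist A.1 B.1 := rfl

lemma dist_eq (A B : Bal X) (h : A ≠ B) : dist A B = diam (A.1 ∪ B.1) := hausdorff_eq A B h

lemma dist_sg (x y : X) : dist (sg x) (sg y) = dist x y := hausdorffDist_singleton

lemma diam_le_dist (A B : Bal X) (h : A ≠ B) : diam A.1 ≤ dist A B := by
  rw [dist_eq A B h]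
  exact diam_mono subset_union_left (A.bdd.union B.bdd)

lemma dist_le_dist (A B : Bal X) (h : A ≠ B) {a b : X} (ha : a ∈ A.1) (hb : b ∈ B.1) :
    dist a b ≤ dist A B := by
  rw [dist_eq A B h]
  exact dist_le_diam_of_mem (A.bdd.union B.bdd) (Or.inl ha) (Or.inr hb)

/-- Fact N2. -/
lemma subset_of_dist_eq (A C : Bal X) (h : A ≠ C) (hd : dist A C ≤ diam A.1) : C.1 ⊆ A.1 := by
  intro x hx
  obtain ⟨a, ha⟩ := A.nonempty
  rw [A.eq_closedBall ha, mem_closedBall, dist_comm]
  exact le_trans (dist_le_dist A C h ha hx) hd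

lemma sg_of_diam (A : Bal X) (h : ¬ 0 < diam A.1) : ∃ x, A = sg x := by
  obtain ⟨a, ha⟩ := A.nonempty
  refine ⟨a, Subtype.ext (Subset.antisymm ?_ ?_)⟩
  · intro x hx
    have := dist_le_diam_of_mem A.bdd hx ha
    exact mem_singleton_iff.2 (dist_le_zero.1 (by linarith))
  · rintro _ rfl
    exact ha

lemma dist_self_sg (A : Bal X) {a : X} (ha : a ∈ A.1) (h : A ≠ sg a) :
    dist A (sg a) = diam A.1 := by
  rw [dist_eq A _ h]
  congr 1
  exact union_eq_self_of_subset_right (by rintro _ rfl; exact ha)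

lemma ne_sg (A : Bal X) (h : 0 < diam A.1) (x : X) : A ≠ sg x := by
  rintro rfl
  rw [sg, diam_singleton] at h
  exact lt_irrefl _ h

end

section Iso

variable {X : Type u} {Y : Type v} [MetricSpace X] [IsUltrametricDist X] [MetricSpace Y]
  [IsUltrametricDist Y]

lemma lemmaH (F : Bal X ≃ᵢ Bal Y) (x : X) (h : 0 < diam (F (sg x)).1) :
    diam (bl x (diam (F (sg x)).1) h.le).1 = diam (F (sg x)).1 ∧
      ∃ y, F (bl x (diam (F (sg x)).1) h.le) = sg y ∧ y ∈ (F (sg x)).1 := by
  set B' := F (sg x) with hB'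
  set ρ := diam B'.1 with hρ
  obtain ⟨b, hb⟩ := B'.nonempty
  have hne : B' ≠ sg b := ne_sg B' h b
  -- the attained minimum
  set C0 := F.symm (sg b) with hC0
  have hC0' : F C0 = sg b := F.apply_symm_apply _
  have hCne : sg x ≠ C0 := by
    intro e
    apply hne
    rw [← hC0', ← e]
  have hd0 : dist (sg x) C0 = ρ := by
    rw [← F.dist_eq, hC0', ← hB']
    exact dist_self_sg B' hb hne
  set z := bl x ρ h.le with hz
  have hxz : x ∈ z.1 := mem_closedBall_self h.le
  have hdz : diam z.1 = ρ := by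
    apply le_antisymm
    · exact diam_closedBall_le x h.le
    · rw [← hd0, dist_eq _ _ hCne]
      apply diam_mono _ z.bdd
      rintro y (hy | hy)
      · have : y = x := hy
        rw [this]; exact hxz
      · rw [hz]
        change y ∈ closedBall x ρ
        rw [mem_closedBall, dist_comm, ← hd0]
        exact dist_le_dist _ _ hCne rfl hy
  refine ⟨hdz, ?_⟩
  have hzne : z ≠ sg x := ne_sg z (by rw [hdz]; exact h) x
  have hFz : F z ≠ B' := fun e => hzne (F.injective (e.trans hB'))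
  have hdF : dist (F z) B' = ρ := by
    rw [hB', F.dist_eq, dist_self_sg z hxz hzne, hdz]
  have hsub : (F z).1 ⊆ B'.1 := by
    apply subset_of_dist_eq B' (F z) hFz.symm
    rw [dist_comm, hdF]
  have hdeg : ¬ 0 < diam (F z).1 := by
    intro hpos
    obtain ⟨c, hc⟩ := (F z).nonempty
    have hne2 := ne_sg (F z) hpos c
    have h1 : dist (F z) (sg c) = diam (F z).1 := dist_self_sg _ hc hne2
    have h2 : dist z (F.symm (sg c)) = diam (F z).1 := by
      rw [← F.dist_eq, F.apply_symm_apply, h1]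
    have h3 : z ≠ F.symm (sg c) := by
      intro e
      apply hne2
      rw [e, F.apply_symm_apply]
    have h4 := diam_le_dist z _ h3
    rw [h2, hdz] at h4
    have h5 : B'.1 ⊆ (F z).1 := by
      apply subset_of_dist_eq (F z) B' hFz
      rw [hdF]
      exact h4
    exact hFz (Subtype.ext (Subset.antisymm hsub h5))
  obtain ⟨y, hy⟩ := sg_of_diam _ hdeg
  refine ⟨y, hy, hsub ?_⟩
  rw [hy]
  rfl

/-- The relation between the points of `X` and of `Y`. -/
def Rel (F : Bal X ≃ᵢ Bal Y) (x : X) (y : Y) : Prop :=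
  F (sg x) = sg y ∨ ∃ h : 0 < diam (F (sg x)).1, F (bl x (diam (F (sg x)).1) h.le) = sg y

lemma rel_total (F : Bal X ≃ᵢ Bal Y) (x : X) : ∃ y, Rel F x y := by
  by_cases h : 0 < diam (F (sg x)).1
  · obtain ⟨_, y, hy, _⟩ := lemmaH F x h
    exact ⟨y, Or.inr ⟨h, hy⟩⟩
  · obtain ⟨y, hy⟩ := sg_of_diam _ h
    exact ⟨y, Or.inl hy⟩

lemma rel_surj (F : Bal X ≃ᵢ Bal Y) (y : Y) : ∃ x, Rel F x y := by
  by_cases h : 0 < diam (F.symm (sg y)).1
  · obtain ⟨h1, x, hx, hx'⟩ := lemmaH F.symm y h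
    refine ⟨x, Or.inr ?_⟩
    have h2 : F (sg x) = bl y (diam (F.symm (sg y)).1) h.le := by
      rw [← hx, F.apply_symm_apply]
    have h3 : diam (F (sg x)).1 = diam (F.symm (sg y)).1 := by rw [h2, h1]
    refine ⟨by rw [h3]; exact h, ?_⟩
    have h4 : bl x (diam (F (sg x)).1) (by rw [h3]; exact h.le) = F.symm (sg y) := by
      apply Subtype.ext
      change closedBall x (diam (F (sg x)).1) = _
      rw [h3]
      exact ((F.symm (sg y)).eq_closedBall hx').symm
    rw [h4, F.apply_symm_apply]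
  · obtain ⟨x, hx⟩ := sg_of_diam _ h
    refine ⟨x, Or.inl ?_⟩
    rw [← hx, F.apply_symm_apply]

/-- What `Rel` says. -/
lemma rel_data (F : Bal X ≃ᵢ Bal Y) {x : X} {y : Y} (h : Rel F x y) :
    ∃ z : Bal X, F z = sg y ∧ x ∈ z.1 ∧ (∀ x' ≠ x, z.1 ⊆ closedBall x (dist x x')) ∧
      (z = sg x ∨ (0 < diam (F (sg x)).1 ∧ diam z.1 = diam (F (sg x)).1)) := by
  rcases h with h | ⟨h, hy⟩
  · refine ⟨sg x, h, rfl, ?_, Or.inl rfl⟩
    rintro x' _ _ rfl
    exact mem_closedBall_self dist_nonneg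
  · refine ⟨_, hy, mem_closedBall_self h.le, ?_, Or.inr ⟨h, (lemmaH F x h).1⟩⟩
    intro x' hx'
    apply closedBall_subset_closedBall
    rw [← dist_sg, ← F.dist_eq]
    apply diam_le_dist
    intro e
    have := F.injective e
    apply hx'
    have h2 : ({x} : Set X) = {x'} := congrArg Subtype.val this
    exact (singleton_eq_singleton_iff.1 h2).symm

lemma rel_dist (F : Bal X ≃ᵢ Bal Y) {x₁ x₂ : X} {y₁ y₂ : Y} (h₁ : Rel F x₁ y₁)
    (h₂ : Rel F x₂ y₂) : dist y₁ y₂ = dist x₁ x₂ := by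
  obtain ⟨z₁, hF₁, hx₁, hs₁, hc₁⟩ := rel_data F h₁
  obtain ⟨z₂, hF₂, hx₂, hs₂, hc₂⟩ := rel_data F h₂
  have hdist : dist y₁ y₂ = dist z₁ z₂ := by
    rw [← dist_sg, ← hF₁, ← hF₂, F.dist_eq]
  by_cases hx : x₁ = x₂
  · subst hx
    rcases h₁ with h₁ | ⟨p₁, h₁⟩ <;> rcases h₂ with h₂ | ⟨p₂, h₂⟩
    · rw [← dist_sg, ← h₁, ← h₂, dist_self, dist_self]
    · exact absurd h₁ (ne_sg _ p₂ _)
    · exact absurd h₂ (ne_sg _ p₁ _)
    · rw [← dist_sg, ← h₁, ← h₂, dist_self, dist_self]
  · have hδ : 0 < dist x₁ x₂ := dist_pos.2 hx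
    have hs₁' : z₁.1 ⊆ closedBall x₁ (dist x₁ x₂) := hs₁ x₂ (Ne.symm hx)
    have hs₂' : z₂.1 ⊆ closedBall x₁ (dist x₁ x₂) := by
      have h1 := hs₂ x₁ hx
      rw [dist_comm] at h1
      rwa [IsUltrametricDist.closedBall_eq_of_mem (x := x₁) (y := x₂)
        (by rw [mem_closedBall, dist_comm])]
    by_cases hz : z₁ = z₂
    · exfalso
      rcases hc₁ with hc₁ | ⟨p₁, hc₁⟩ <;> rcases hc₂ with hc₂ | ⟨p₂, hc₂⟩
      · have h2 : ({x₁} : Set X) = {x₂} := congrArg Subtype.val ((hc₁.symm.trans hz).trans hc₂)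
        exact hx (singleton_eq_singleton_iff.1 h2)
      · rw [← hz] at hc₂
        exact ne_sg z₁ (by rw [hc₂]; exact p₂) x₁ hc₁
      · rw [hz] at hc₁
        exact ne_sg z₂ (by rw [hc₁]; exact p₁) x₂ hc₂
      · have hne : F (sg x₁) ≠ F (sg x₂) := by
          intro e
          have h2 : ({x₁} : Set X) = {x₂} := congrArg Subtype.val (F.injective e)
          exact hx (singleton_eq_singleton_iff.1 h2)
        have hd1 : dist (F (sg x₁)) (F (sg x₂)) = dist x₁ x₂ := by rw [F.dist_eq, dist_sg]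
        have hle : dist x₁ x₂ ≤ diam z₁.1 :=
          dist_le_diam_of_mem z₁.bdd hx₁ (by rw [hz]; exact hx₂)
        have e1 : (F (sg x₂)).1 ⊆ (F (sg x₁)).1 := by
          apply subset_of_dist_eq _ _ hne
          rw [hd1, ← hc₁]
          exact hle
        have e2 : (F (sg x₁)).1 ⊆ (F (sg x₂)).1 := by
          apply subset_of_dist_eq _ _ hne.symm
          rw [dist_comm, hd1, ← hc₂, ← hz]
          exact hle
        exact hne (Subtype.ext (Subset.antisymm e2 e1))
    · rw [hdist]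
      apply le_antisymm
      · rw [dist_eq _ _ hz]
        exact diam_le_of_subset_closedBall hδ.le (union_subset hs₁' hs₂')
      · exact dist_le_dist _ _ hz hx₁ hx₂

theorem isometry_of_bal (F : Bal X ≃ᵢ Bal Y) : Nonempty (X ≃ᵢ Y) := by
  choose g hg using rel_total F
  have hiso : Isometry g := Isometry.of_dist_eq fun x x' => rel_dist F (hg x) (hg x')
  have hsurj : Function.Surjective g := by
    intro y
    obtain ⟨x, hx⟩ := rel_surj F y
    refine ⟨x, ?_⟩
    have := rel_dist F (hg x) hx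
    rw [dist_self] at this
    exact dist_eq_zero.1 this
  exact ⟨⟨Equiv.ofBijective g ⟨hiso.injective, hsurj⟩, hiso⟩⟩

end Iso

end Pool.Agent.R859.UB
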