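import Mathlib
import Pool.Agent.R859.UB.Bal

/-!
# Completions of ultrametric spaces and their balls of positive radius
-/

set_option autoImplicit false

namespace Pool.Agent.R859.UB

open Metric Set Filter Topology UniformSpace

universe u v w

section Complete

variable {X : Type u} [MetricSpace X] [IsUltrametricDist X]

lemma dist_sg_self (A : Bal X) {a : X} (ha : a ∈ A.1) : dist A (sg a) ≤ diam A.1 := by
  by_cases h : A = sg a
  · rw [h, dist_self]; exact diam_nonneg
  · exact (dist_self_sg A ha h).le

instance instCompleteBal [CompleteSpace X] : CompleteSpace (Bal X) := by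
  apply Metric.complete_of_cauchySeq_tendsto
  intro s hs
  by_cases hc : ∃ N, ∀ n, N ≤ n → s n = s N
  · obtain ⟨N, hN⟩ := hc
    refine ⟨s N, tendsto_const_nhds.congr' ?_⟩
    filter_upwards [eventually_ge_atTop N] with n hn
    exact (hN n hn).symm
  · push Not at hc
    have hdiam : ∀ ε > 0, ∃ N, (∀ m, N ≤ m → ∀ n, N ≤ n → dist (s m) (s n) < ε) ∧
        ∀ m, N ≤ m → diam (s m).1 < ε := by
      intro ε hε
      obtain ⟨N, hN⟩ := Metric.cauchySeq_iff.1 hs ε hε
      refine ⟨N, fun m hm n hn => hN m hm n hn, fun m hm => ?_⟩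
      obtain ⟨n, hn, hne⟩ := hc m
      exact lt_of_le_of_lt (diam_le_dist _ _ hne.symm) (hN m hm n (le_trans hm hn))
    choose a ha using fun n => (s n).nonempty
    have hca : CauchySeq a := by
      rw [Metric.cauchySeq_iff]
      intro ε hε
      obtain ⟨N, h1, h2⟩ := hdiam ε hε
      refine ⟨N, fun m hm n hn => ?_⟩
      by_cases h : s m = s n
      · refine lt_of_le_of_lt (dist_le_diam_of_mem (s m).bdd (ha m) ?_) (h2 m hm)
        rw [h]; exact ha n
      · exact lt_of_le_of_lt (dist_le_dist _ _ h (ha m) (ha n)) (h1 m hm n hn)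
    obtain ⟨x, hx⟩ := cauchySeq_tendsto_of_complete hca
    refine ⟨sg x, ?_⟩
    rw [Metric.tendsto_atTop] at hx ⊢
    intro ε hε
    obtain ⟨N, _, h2⟩ := hdiam (ε / 2) (by linarith)
    obtain ⟨N', hN'⟩ := hx (ε / 2) (by linarith)
    refine ⟨max N N', fun n hn => ?_⟩
    have h3 := h2 n (le_trans (le_max_left _ _) hn)
    have h4 := hN' n (le_trans (le_max_right _ _) hn)
    have h5 := dist_triangle (s n) (sg (a n)) (sg x)
    have h6 := dist_sg_self (s n) (ha n)
    rw [dist_sg] at h5
    linarith

/-- The inclusion of the balls of positive radius in all balls. -/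
def inc (A : PosBall X) : Bal X :=
  ⟨A.1, by obtain ⟨c, r, hr, h⟩ := A.2; exact ⟨c, r, hr.le, h⟩⟩

lemma inc_injective : Function.Injective (inc (X := X)) := by
  intro A B h
  have h1 : (inc A).1 = (inc B).1 := by rw [h]
  exact Subtype.ext h1

noncomputable instance instMetricPosBall : MetricSpace (PosBall X) :=
  MetricSpace.induced inc inc_injective inferInstance

lemma inc_isometry : Isometry (inc (X := X)) := Isometry.of_dist_eq fun _ _ => rfl

lemma inc_dense : DenseRange (inc (X := X)) := by
  rw [Metric.denseRange_iff]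
  intro A ε hε
  obtain ⟨c, r, hr, h⟩ := A.2
  rcases hr.eq_or_lt with h0 | h0
  · refine ⟨⟨closedBall c (ε / 2), c, ε / 2, by linarith, rfl⟩, ?_⟩
    have hA : A = sg c := by
      apply Subtype.ext
      rw [h, ← h0, closedBall_zero]
      rfl
    rw [hA, dist_comm]
    refine lt_of_le_of_lt (dist_sg_self _ ?_) (lt_of_le_of_lt ?_ (half_lt_self hε))
    · exact mem_closedBall_self (by linarith)
    · exact diam_closedBall_le c (by linarith)
  · refine ⟨⟨A.1, c, r, h0, h⟩, ?_⟩
    have : inc ⟨A.1, c, r, h0, h⟩ = A := rfl
    rw [this, dist_self]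
    exact hε

variable (X) in
/-- The space of all closed balls is a completion of the space of those of positive radius. -/
noncomputable def pkg [CompleteSpace X] : AbstractCompletion.{u} (PosBall X) where
  space := Bal X
  coe := inc
  uniformStruct := inferInstance
  complete := inferInstance
  separation := inferInstance
  isUniformInducing := inc_isometry.isUniformInducing
  dense := inc_dense

end Complete

section Ext

variable {X : Type u} {Y : Type v} [MetricSpace X] [IsUltrametricDist X] [MetricSpace Y]
  [IsUltrametricDist Y] [CompleteSpace X] [CompleteSpace Y]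

theorem bal_of_posBall (h : BallIsometric X Y) : Nonempty (Bal X ≃ᵢ Bal Y) := by
  obtain ⟨F, hF⟩ := h
  have hiso : Isometry F := Isometry.of_dist_eq hF
  have hiso' : Isometry F.symm := Isometry.of_dist_eq fun A B => by
    rw [← hiso.dist_eq, F.apply_symm_apply, F.apply_symm_apply]
  let E : PosBall X ≃ᵤ PosBall Y := ⟨F, hiso.uniformContinuous, hiso'.uniformContinuous⟩
  let Φ : Bal X ≃ᵤ Bal Y := (pkg X).mapEquiv (pkg Y) E
  have hΦ : ∀ A : PosBall X, Φ (inc A) = inc (F A) := fun A =>
    (pkg X).mapEquiv_coe (pkg Y) E A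
  have hcont : Continuous Φ := Φ.uniformContinuous.continuous
  have hd : ∀ x y, dist (Φ x) (Φ y) = dist x y := by
    intro x y
    refine (inc_dense (X := X)).induction_on₂
      (p := fun x y => dist (Φ x) (Φ y) = dist x y) ?_ ?_ x y
    · exact isClosed_eq (by fun_prop) (by fun_prop)
    · intro A B
      rw [hΦ, hΦ]
      exact hF A B
  exact ⟨⟨Φ.toEquiv, Isometry.of_dist_eq hd⟩⟩

end Ext

section Equivalence

lemma BallIsometric.symm {X : Type u} {Y : Type v} [MetricSpace X] [MetricSpace Y]
    (h : BallIsometric X Y) : BallIsometric Y X := by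
  obtain ⟨F, hF⟩ := h
  refine ⟨F.symm, fun A B => ?_⟩
  have := hF (F.symm A) (F.symm B)
  rw [F.apply_symm_apply, F.apply_symm_apply] at this
  exact this.symm

lemma BallIsometric.trans {X : Type u} {Y : Type v} {Z : Type w} [MetricSpace X] [MetricSpace Y]
    [MetricSpace Z] (h : BallIsometric X Y) (h' : BallIsometric Y Z) : BallIsometric X Z := by
  obtain ⟨F, hF⟩ := h
  obtain ⟨G, hG⟩ := h'
  exact ⟨F.trans G, fun A B => (hG (F A) (F B)).trans (hF A B)⟩

lemma ballIsometric_of_isometryEquiv {X : Type u} {Y : Type v} [MetricSpace X] [MetricSpace Y]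
    (e : X ≃ᵢ Y) : BallIsometric X Y := by
  let F : PosBall X → PosBall Y := fun A => ⟨e '' A.1, by
    obtain ⟨c, r, hr, h⟩ := A.2
    exact ⟨e c, r, hr, by rw [h, e.image_closedBall]⟩⟩
  let G : PosBall Y → PosBall X := fun A => ⟨e.symm '' A.1, by
    obtain ⟨c, r, hr, h⟩ := A.2
    exact ⟨e.symm c, r, hr, by rw [h, e.symm.image_closedBall]⟩⟩
  refine ⟨⟨F, G, fun A => Subtype.ext ?_, fun A => Subtype.ext ?_⟩, fun A B => ?_⟩
  · change e.symm '' (e '' A.1) = A.1
    rw [← image_comp]
    simp
  · change e '' (e.symm '' A.1) = A.1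
    rw [← image_comp]
    simp
  · exact hausdorffDist_image e.isometry

variable {X : Type u} [MetricSpace X] [IsUltrametricDist X]

instance instUltraCompletion : IsUltrametricDist (Completion X) where
  dist_triangle_max x y z := by
    refine Completion.induction_on₃ x y z ?_ ?_
    · exact isClosed_le (by fun_prop) (by fun_prop)
    · intro a b c
      rw [Completion.dist_eq, Completion.dist_eq, Completion.dist_eq]
      exact IsUltrametricDist.dist_triangle_max a b c

lemma exists_center (B : PosBall (Completion X)) :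
    ∃ (c : X) (r : ℝ), 0 < r ∧ B.1 = closedBall (c : Completion X) r := by
  obtain ⟨c, r, hr, h⟩ := B.2
  obtain ⟨x, hx⟩ := (Metric.denseRange_iff.1 (Completion.denseRange_coe (α := X))) c r hr
  refine ⟨x, r, hr, ?_⟩
  rw [h]
  apply IsUltrametricDist.closedBall_eq_of_mem
  rw [mem_closedBall, dist_comm]
  exact hx.le

omit [IsUltrametricDist X] in
lemma preimage_closedBall (c : X) (r : ℝ) :
    ((↑) : X → Completion X) ⁻¹' (closedBall (c : Completion X) r) = closedBall c r :=
  Completion.coe_isometry.preimage_closedBall c r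

lemma closure_image_preimage (B : PosBall (Completion X)) :
    closure (((↑) : X → Completion X) '' (((↑) : X → Completion X) ⁻¹' B.1)) = B.1 := by
  obtain ⟨c, r, hr, h⟩ := B.2
  have hcl : IsClopen B.1 := by
    rw [h]; exact IsUltrametricDist.isClopen_closedBall c hr.ne'
  rw [image_preimage_eq_inter_range]
  apply Subset.antisymm
  · exact closure_minimal inter_subset_left hcl.isClosed
  · exact (Completion.denseRange_coe (α := X)).open_subset_closure_inter hcl.isOpen

lemma ballIsometric_completion : BallIsometric (Completion X) X := by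
  let F : PosBall (Completion X) → PosBall X := fun B => ⟨((↑) : X → Completion X) ⁻¹' B.1, by
    obtain ⟨c, r, hr, h⟩ := exists_center B
    exact ⟨c, r, hr, by rw [h, preimage_closedBall]⟩⟩
  have hF : Function.Bijective F := by
    constructor
    · intro A B h
      have h1 : ((↑) : X → Completion X) ⁻¹' A.1 = ((↑) : X → Completion X) ⁻¹' B.1 :=
        congrArg Subtype.val h
      apply Subtype.ext
      rw [← closure_image_preimage A, ← closure_image_preimage B, h1]
    · rintro ⟨A, c, r, hr, h⟩
      refine ⟨⟨closedBall (c : Completion X) r, c, r, hr, rfl⟩, Subtype.ext ?_⟩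
      change ((↑) : X → Completion X) ⁻¹' _ = A
      rw [preimage_closedBall, h]
  refine ⟨Equiv.ofBijective F hF, fun A B => ?_⟩
  change hausdorffDist (((↑) : X → Completion X) ⁻¹' A.1) (((↑) : X → Completion X) ⁻¹' B.1) =
    hausdorffDist A.1 B.1
  rw [← hausdorffDist_image Completion.coe_isometry, ← hausdorffDist_closure,
    closure_image_preimage, closure_image_preimage]

end Equivalence

theorem main {X : Type u} {Y : Type v} [MetricSpace X] [IsUltrametricDist X] [MetricSpace Y]
    [IsUltrametricDist Y] :
    Nonempty (Completion X ≃ᵢ Completion Y) ↔ BallIsometric X Y := by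
  constructor
  · rintro ⟨e⟩
    exact (ballIsometric_completion.symm.trans (ballIsometric_of_isometryEquiv e)).trans
      ballIsometric_completion
  · intro h
    have h1 : BallIsometric (Completion X) (Completion Y) :=
      (ballIsometric_completion.trans h).trans ballIsometric_completion.symm
    obtain ⟨F⟩ := bal_of_posBall h1
    exact isometry_of_bal F

end Pool.Agent.R859.UB
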